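import Pool.Agent.H30.VX.Targets

/-!
# MP_d32443_co, board vex_modules: row QUA
-/

set_option autoImplicit false

open Finset Pool.Agent.H48.CE Pool.Agent.H30.VR Pool.Agent.H30.VX

namespace Pool.Agent.H48.VX

/-- The normalised inequality. -/
theorem qua_real (ε δ a y b F : ℝ) (hε : 0 < ε) (hε1 : ε ≤ 1 / 100) (hδ : δ = ε ^ 2 / 10000)
    (ha : 0 ≤ a) (hb : 0 ≤ b) (hab : a + b / 2 ≤ 1 + δ) (hy : 2 - δ ≤ y)
    (h1 : 2 * y - 1 - δ ≤ F) (h2 : 4 - 5 * δ ≤ F) (h3 : y ≤ 2 + ε ∨ 4 + ε ^ 2 / 4 ≤ F)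
    (hF : F ≤ a * a + 2 * a * (y - a) + b * b + δ * y) :
    (1 - ε ≤ a ∧ 49 / 20 ≤ y) ∨ (a ≤ ε ∧ y ≤ 2 + ε) := by
  have hδ0 : 0 < δ := by rw [hδ]; positivity
  have hδ1 : δ ≤ ε / 1000000 := by
    rw [hδ]
    have : ε * ε ≤ ε * (1 / 100) := mul_le_mul_of_nonneg_left hε1 hε.le
    nlinarith only [this]
  have hδ2 : δ ≤ 1 / 100000000 := by linarith
  have hb2 : b ≤ 2 * (1 + δ - a) := by linarith
  have hbb : b * b ≤ (2 * (1 + δ - a)) * (2 * (1 + δ - a)) :=
    mul_self_le_mul_self hb hb2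
  have hF' : F ≤ 2 * a * y - a * a + 4 * ((1 + δ - a) * (1 + δ - a)) + δ * y := by nlinarith only [hbb, hF]
  have ha1 : a ≤ 1 + δ := by linarith
  have hy0 : 0 < y := by linarith
  -- the branch of large `a`
  have big : 1 - 36 * δ ≤ a → (1 - ε ≤ a ∧ 49 / 20 ≤ y) := by
    intro hbig
    refine ⟨by linarith, ?_⟩
    by_contra hcon
    push Not at hcon
    have e1 : a * (2 * y - a) ≤ (1 + δ) * (2 * y - a) :=
      mul_le_mul_of_nonneg_right ha1 (by linarith)
    have e2 : (1 + δ) * (2 * y - a) ≤ (1 + δ) * (39 / 10 + 36 * δ) :=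
      mul_le_mul_of_nonneg_left (by linarith) (by linarith)
    have e3 : (1 + δ - a) * (1 + δ - a) ≤ (37 * δ) * (37 * δ) :=
      mul_self_le_mul_self (by linarith) (by linarith)
    have e4 : δ * δ ≤ δ * (1 / 100000000) := mul_le_mul_of_nonneg_left hδ2 hδ0.le
    have e5 : δ * y ≤ δ * 3 := mul_le_mul_of_nonneg_left (by linarith) hδ0.le
    nlinarith only [e1, e2, e3, e4, e5, hF', h2]
  have e7 : δ * δ ≤ δ * (1 / 100000000) := mul_le_mul_of_nonneg_left hδ2 hδ0.le
  by_cases ha2 : 1 < a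
  · exact Or.inl (big (by linarith))
  push Not at ha2
  have ha3 : 0 ≤ 1 - a := by linarith
  have e8 : 4 * ((1 + δ - a) * (1 + δ - a)) ≤ 4 * ((1 - a) * (1 - a)) + 9 * δ := by
    have : δ * (1 - a) ≤ δ * 1 := mul_le_mul_of_nonneg_left (by linarith) hδ0.le
    nlinarith only [this, e7]
  -- the dichotomy
  have e9 : a * (1 - a) ≤ 4 * δ * y := by
    have f1 : (1 - a) * (4 - 5 * δ) ≤ (1 - a) * F := mul_le_mul_of_nonneg_left h2 ha3
    have f2 : a * (2 * y - 1 - δ) ≤ a * F := mul_le_mul_of_nonneg_left h1 ha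
    have f3 : (1 - a) * δ ≤ 1 * δ := mul_le_mul_of_nonneg_right (by linarith) hδ0.le
    have f4 : a * δ ≤ 1 * δ := mul_le_mul_of_nonneg_right (by linarith) hδ0.le
    have f5 : δ * 1 ≤ δ * y := mul_le_mul_of_nonneg_left (by linarith) hδ0.le
    have f6 : δ * (19 / 10) ≤ δ * y := mul_le_mul_of_nonneg_left (by linarith) hδ0.le
    have f7 : (1 - a) * F + a * F = F := by ring
    nlinarith only [f1, f2, f3, f4, f5, f6, f7, hF', e8]
  rcases le_total y 6 with hy6 | hy6
  · have e10 : a * (1 - a) ≤ 24 * δ := by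
      have : 4 * δ * y ≤ 4 * δ * 6 := mul_le_mul_of_nonneg_left hy6 (by linarith)
      linarith
    rcases le_total a (1 / 3) with ha4 | ha4
    · right
      have e11 : a ≤ 36 * δ := by
        have : a * (2 / 3) ≤ a * (1 - a) := mul_le_mul_of_nonneg_left (by linarith) ha
        linarith
      refine ⟨by linarith, ?_⟩
      rcases h3 with h3 | h3
      · exact h3
      · exfalso
        have g1 : a * y ≤ 36 * δ * 6 := mul_le_mul e11 hy6 hy0.le (by linarith)
        have g2 : (1 - a) * (1 - a) ≤ 1 * 1 := mul_self_le_mul_self ha3 (by linarith)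
        have g3 : δ * y ≤ δ * 6 := mul_le_mul_of_nonneg_left hy6 hδ0.le
        have g4 : 0 ≤ a * a := mul_self_nonneg a
        have g5 : F ≤ 4 + 450 * δ := by nlinarith only [g1, g2, g3, g4, hF', e8]
        have g6 : ε ^ 2 / 4 = 2500 * δ := by rw [hδ]; ring
        linarith
    · left
      apply big
      rcases le_total a (2 / 3) with ha5 | ha5
      · exfalso
        have : (1 / 3) * (1 / 3) ≤ a * (1 - a) :=
          mul_le_mul ha4 (by linarith) (by norm_num) ha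
        linarith
      · have : (2 / 3) * (1 - a) ≤ a * (1 - a) := mul_le_mul_of_nonneg_right ha5 ha3
        linarith
  · left
    apply big
    have f1 : (1 - a) * (2 * y - 5 + 3 * a) ≤ 10 * δ + δ * y := by nlinarith only [hF', e8, h1]
    have f2 : (1 - a) * y ≤ (1 - a) * (2 * y - 5 + 3 * a) :=
      mul_le_mul_of_nonneg_left (by linarith) ha3
    have f3 : δ * 6 ≤ δ * y := mul_le_mul_of_nonneg_left hy6 hδ0.le
    have f4 : (1 - a) * y ≤ (3 * δ) * y := by
      have f6 : 0 ≤ δ * y := (mul_pos hδ0 hy0).le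
      nlinarith only [f1, f2, f3, f6]
    have f5 : 1 - a ≤ 3 * δ := le_of_mul_le_mul_right f4 hy0
    linarith

/-- monotonicity of `ff` -/
theorem ff_mono (hFFA : T_FFA) {k : ℕ} (hk : 1 ≤ k) {m n : ℕ} (hm : 1 ≤ m) (h : m ≤ n) :
    ff k m ≤ ff k n := by
  induction n, h using Nat.le_induction with
  | base => exact le_rfl
  | succ n hmn ih => exact ih.trans (hFFA k n hk (hm.trans hmn)).1.le

theorem pf_QUA (hFFB : T_FFB) (hFFA : T_FFA) : T_QUA := by
  intro ε hε hε1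
  obtain ⟨δ, hδ⟩ : ∃ δ : ℝ, δ = ε ^ 2 / 10000 := ⟨_, rfl⟩
  have hδ0 : 0 < δ := by rw [hδ]; positivity
  have hδ1 : δ ≤ ε / 1000000 := by
    rw [hδ]
    have : ε * ε ≤ ε * (1 / 100) := mul_le_mul_of_nonneg_left hε1 hε.le
    nlinarith only [this]
  obtain ⟨N, hN⟩ := exists_nat_ge (4 / δ)
  refine ⟨δ, N + 1, hδ0, ?_⟩
  intro k hk m h M hm hhM hhMm hff
  have hk1 : 1 ≤ k := by omega
  have hkpos : (0 : ℝ) < k := by exact_mod_cast hk1
  have hkδ : 4 ≤ δ * k := by
    have : (4 / δ : ℝ) ≤ k := hN.trans (by exact_mod_cast (by omega : N ≤ k))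
    rw [div_le_iff₀ hδ0] at this
    linarith
  have hk2 : (0 : ℝ) < (k : ℝ) * k := mul_pos hkpos hkpos
  have hmk : (k : ℝ) ≤ m := by
    have : δ * (k : ℝ) ≤ 1 * k := mul_le_mul_of_nonneg_right (by linarith) hkpos.le
    linarith
  have hm1 : 1 ≤ m := by
    have : (1 : ℝ) ≤ m := by
      have : (1 : ℝ) ≤ k := by exact_mod_cast hk1
      linarith
    exact_mod_cast this
  obtain ⟨y, hy⟩ : ∃ y : ℝ, (m : ℝ) = y * k := ⟨m / k, by field_simp⟩
  obtain ⟨a, ha⟩ : ∃ a : ℝ, (h : ℝ) = a * k := ⟨h / k, by field_simp⟩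
  obtain ⟨b, hb⟩ : ∃ b : ℝ, (M : ℝ) = b * k := ⟨M / k, by field_simp⟩
  obtain ⟨F, hF⟩ : ∃ F : ℝ, (ff k m : ℝ) = F * (k * k) := ⟨ff k m / (k * k), by field_simp⟩
  have hya : 2 - δ ≤ y := by rw [hy] at hm; exact le_of_mul_le_mul_right hm hkpos
  have ha0 : 0 ≤ a := by
    have : (0 : ℝ) * k ≤ a * k := by rw [← ha, zero_mul]; exact Nat.cast_nonneg _
    exact le_of_mul_le_mul_right this hkpos
  have hb0 : 0 ≤ b := by
    have : (0 : ℝ) * k ≤ b * k := by rw [← hb, zero_mul]; exact Nat.cast_nonneg _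
    exact le_of_mul_le_mul_right this hkpos
  have hab : a + b / 2 ≤ 1 + δ := by
    rw [ha, hb] at hhM
    have : (a + b / 2) * k ≤ (1 + δ) * k := by linarith
    exact le_of_mul_le_mul_right this hkpos
  obtain ⟨f1, f2, f3⟩ := hFFB k m hk1 hm1
  -- first bound
  have g1 : 2 * y - 1 - δ ≤ F := by
    have r1 : rr k m * (2 * k - rr k m) ≤ k * k := by
      obtain ⟨s, hs⟩ : ∃ s, 2 * k - rr k m = s := ⟨_, rfl⟩
      rw [hs]
      have hs2 : rr k m + s = 2 * k := by omega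
      have : (rr k m : ℤ) + s = 2 * k := by exact_mod_cast hs2
      have h5 : ((rr k m : ℤ) + s) * (rr k m + s) = (2 * k) * (2 * k) := by rw [this]
      have h4 : (rr k m : ℤ) * s ≤ k * k := by nlinarith only [sq_nonneg ((rr k m : ℤ) - s), h5]
      exact_mod_cast h4
    have r2 : (2 * k + 1) * (m - 1) ≤ ff k m + k * k := by omega
    have r3 : ((2 * k + 1 : ℕ) : ℝ) * ((m - 1 : ℕ) : ℝ) ≤ ff k m + k * k := by exact_mod_cast r2
    rw [Nat.cast_sub hm1] at r3
    push_cast at r3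
    rw [hF, hy] at r3
    have r4 : (2 * y - 1 - δ) * (k * k) ≤ F * (k * k) := by
      have : (1 : ℝ) ≤ y * k := by rw [← hy]; exact_mod_cast hm1
      nlinarith only [r3, mul_le_mul_of_nonneg_right hkδ hkpos.le, this, hkpos]
    exact le_of_mul_le_mul_right r4 hk2
  have g2 : 4 - 5 * δ ≤ F := by
    have r1 : (4 - 5 * δ) * ((k : ℝ) * k) ≤ ff k m := by
      rcases le_total m (2 * k + 1) with hm2 | hm2
      · rw [f3 hm2]
        push_cast
        rw [Nat.cast_sub hm1]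
        push_cast
        have s1 : (2 - δ) * (k : ℝ) - 1 ≤ (m : ℝ) - 1 := by linarith
        have s2 : 0 ≤ (2 - δ) * (k : ℝ) - 1 := by
          have t1 : δ * (k : ℝ) ≤ 1 * k := mul_le_mul_of_nonneg_right (by linarith) hkpos.le
          have t2 : (1 : ℝ) ≤ k := by exact_mod_cast hk1
          linarith
        have s3 : ((2 - δ) * (k : ℝ)) * ((2 - δ) * k - 1) ≤ m * ((m : ℝ) - 1) :=
          mul_le_mul hm s1 s2 (Nat.cast_nonneg _)
        have s4 : 4 * (k : ℝ) ≤ δ * k * k := mul_le_mul_of_nonneg_right hkδ hkpos.le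
        have s5 : 0 ≤ δ * δ * ((k : ℝ) * k) := by positivity
        have s6 : 0 ≤ δ * (k : ℝ) := by positivity
        nlinarith only [s3, s4, s5, s6]
      · have s1 := ff_mono hFFA hk1 (show 1 ≤ 2 * k + 1 by omega) hm2
        have s2 : ff k (2 * k + 1) = (2 * k + 1) * (2 * k) :=
          (hFFB k (2 * k + 1) hk1 (by omega)).2.2 le_rfl
        have s3 : ((2 * k + 1) * (2 * k) : ℝ) ≤ ff k m := by
          rw [s2] at s1; exact_mod_cast s1
        have s4 : 0 ≤ δ * ((k : ℝ) * k) := by positivity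
        nlinarith only [s3, s4]
    rw [hF] at r1
    exact le_of_mul_le_mul_right r1 hk2
  have g3 : y ≤ 2 + ε ∨ 4 + ε ^ 2 / 4 ≤ F := by
    rcases le_total y (2 + ε) with hy2 | hy2
    · exact Or.inl hy2
    right
    have hm2 : (2 + ε) * (k : ℝ) ≤ m := by
      rw [hy]; exact mul_le_mul_of_nonneg_right hy2 hkpos.le
    have hεk : 2 ≤ ε * (k : ℝ) := by
      have : δ * (k : ℝ) ≤ ε * k := mul_le_mul_of_nonneg_right (by linarith) hkpos.le
      linarith
    have hm3 : 2 * k + 1 ≤ m := by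
      have : ((2 * k + 1 : ℕ) : ℝ) ≤ m := by push_cast; linarith
      exact_mod_cast this
    have r1 : (4 + ε ^ 2 / 4) * ((k : ℝ) * k) ≤ ff k m := by
      rcases le_total m (4 * k + 1) with hm4 | hm4
      · -- `ff` of `m` is `2 k (2 k + 1) + (m - 2 k) (m - 2 k - 1)`
        obtain ⟨s, hs⟩ : ∃ s, m = s + 2 * k := ⟨m - 2 * k, by omega⟩
        have t1 := (hFFA k s hk1 (by omega)).2.2
        have t2 := (hFFB k s hk1 (by omega)).2.2 (by omega)
        rw [← hs, t2] at t1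
        have t3 : (ff k m : ℝ) = s * ((s : ℝ) - 1) + 2 * k * (2 * k + 1) := by
          rw [t1]
          push_cast
          rw [Nat.cast_sub (show 1 ≤ s by omega)]
          push_cast
          ring
        have t4 : ε * (k : ℝ) ≤ s := by
          have : (m : ℝ) = s + 2 * k := by rw [hs]; push_cast; ring
          linarith
        have t5 : ε / 2 * (k : ℝ) ≤ (s : ℝ) - 1 := by linarith
        have t6 : (ε * (k : ℝ)) * (ε / 2 * k) ≤ s * ((s : ℝ) - 1) :=
          mul_le_mul t4 t5 (by positivity) (Nat.cast_nonneg _)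
        have t7 : 0 ≤ ε ^ 2 * ((k : ℝ) * k) := by positivity
        rw [t3]
        nlinarith only [t6, t7]
      · have s1 := ff_mono hFFA hk1 (show 1 ≤ 4 * k + 1 by omega) hm4
        have s2 := (hFFA k (2 * k + 1) hk1 (by omega)).2.2
        have s3 : ff k (2 * k + 1) = (2 * k + 1) * (2 * k) :=
          (hFFB k (2 * k + 1) hk1 (by omega)).2.2 le_rfl
        rw [show 2 * k + 1 + 2 * k = 4 * k + 1 by ring, s3] at s2
        rw [s2] at s1
        have s4 : ((2 * k + 1) * (2 * k) + 2 * k * (2 * k + 1) : ℝ) ≤ ff k m := by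
          exact_mod_cast s1
        have s5 : ε ^ 2 ≤ 1 := by nlinarith only [hε, hε1]
        have s6 : ε ^ 2 * ((k : ℝ) * k) ≤ 1 * (k * k) := mul_le_mul_of_nonneg_right s5 hk2.le
        nlinarith only [s4, s6]
    rw [hF] at r1
    exact le_of_mul_le_mul_right r1 hk2
  have g4 : F ≤ a * a + 2 * a * (y - a) + b * b + δ * y := by
    have r1 : F * (k * k) ≤ (a * a + 2 * a * (y - a) + b * b + δ * y) * (k * k) := by
      rw [← hF]
      rw [ha, hb, hy] at hff
      nlinarith only [hff]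
    exact le_of_mul_le_mul_right r1 hk2
  rcases qua_real ε δ a y b F hε hε1 hδ ha0 hb0 hab hya g1 g2 g3 g4 with ⟨q1, q2⟩ | ⟨q1, q2⟩
  · left
    rw [ha, hy]
    exact ⟨mul_le_mul_of_nonneg_right q1 hkpos.le, mul_le_mul_of_nonneg_right q2 hkpos.le⟩
  · right
    rw [ha, hy]
    exact ⟨mul_le_mul_of_nonneg_right q1 hkpos.le, mul_le_mul_of_nonneg_right q2 hkpos.le⟩

end Pool.Agent.H48.VX
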