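import Pool.Agent.H30.VX.Targets

/-!
# MP_d32443_co, board vex_modules: row REC
-/

set_option autoImplicit false

open Finset Pool.Agent.H48.CE Pool.Agent.H30.VR Pool.Agent.H30.VX

namespace Pool.Agent.H48.VX

/-- monotonicity of `ff` -/
theorem rec_mono (hFFA : T_FFA) {k : ℕ} (hk : 1 ≤ k) {m n : ℕ} (hm : 1 ≤ m) (h : m ≤ n) :
    ff k m ≤ ff k n := by
  induction n, h using Nat.le_induction with
  | base => exact le_rfl
  | succ n hmn ih => exact ih.trans (hFFA k n hk (hm.trans hmn)).1.le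

theorem rec_steps (hFFA : T_FFA) {k : ℕ} (hk : 1 ≤ k) {m : ℕ} (hm : 1 ≤ m) (j : ℕ) :
    ff k (m + j) ≤ ff k m + 4 * k * j := by
  induction j with
  | zero => simp
  | succ j ih =>
    have h1 := (hFFA k (m + j) hk (by omega)).2.1
    have h2 : m + (j + 1) = (m + j) + 1 := by ring
    rw [h2]
    have h3 : 4 * k * (j + 1) = 4 * k * j + 4 * k := by ring
    omega

section sep

variable {V : Type} {G : SimpleGraph V}

theorem rec_ee_sep {X A B : Finset V} (hcov : ∀ x, x ∈ A ∨ x ∈ B ↔ x ∈ X)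
    (hsep : ∀ x ∈ A, x ∉ B → ∀ y ∈ B, y ∉ A → ¬ G.Adj x y) :
    ee G X X ≤ ee G A A + ee G B B := by
  classical
  rw [ee_eq_card, ee_eq_card, ee_eq_card]
  refine le_trans (card_le_card ?_) (card_union_le _ _)
  intro p hp
  rw [mem_filter, mem_product] at hp
  obtain ⟨⟨h1, h2⟩, h3⟩ := hp
  rw [← hcov] at h1 h2
  rw [mem_union, mem_filter, mem_filter, mem_product, mem_product]
  by_cases a1 : p.1 ∈ A <;> by_cases a2 : p.2 ∈ A
  · exact Or.inl ⟨⟨a1, a2⟩, h3⟩
  · have b2 : p.2 ∈ B := h2.resolve_left a2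
    by_cases b1 : p.1 ∈ B
    · exact Or.inr ⟨⟨b1, b2⟩, h3⟩
    · exact absurd h3 (hsep _ a1 b1 _ b2 a2)
  · have b1 : p.1 ∈ B := h1.resolve_left a1
    by_cases b2 : p.2 ∈ B
    · exact Or.inr ⟨⟨b1, b2⟩, h3⟩
    · exact absurd h3.symm (hsep _ a2 b2 _ b1 a1)
  · exact Or.inr ⟨⟨h1.resolve_left a1, h2.resolve_left a2⟩, h3⟩

theorem rec_ee_sep2 [DecidableEq V] {X A B : Finset V} (hcov : ∀ x, x ∈ A ∨ x ∈ B ↔ x ∈ X)
    (hsep : ∀ x ∈ A, x ∉ B → ∀ y ∈ B, y ∉ A → ¬ G.Adj x y) :
    ee G X X ≤ ee G B B + 2 * ((A \ B).card * A.card) := by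
  classical
  have h1 : ee G X X ≤ ee G B B + ((A \ B) ×ˢ A).card + (A ×ˢ (A \ B)).card := by
    rw [ee_eq_card, ee_eq_card]
    refine le_trans (card_le_card (t := (((B ×ˢ B).filter (fun p => G.Adj p.1 p.2)) ∪
      ((A \ B) ×ˢ A)) ∪ (A ×ˢ (A \ B))) ?_) ?_
    · intro p hp
      rw [mem_filter, mem_product] at hp
      obtain ⟨⟨h1, h2⟩, h3⟩ := hp
      rw [← hcov] at h1 h2
      simp only [mem_union, mem_filter, mem_product, mem_sdiff]
      by_cases b1 : p.1 ∈ B <;> by_cases b2 : p.2 ∈ B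
      · exact Or.inl (Or.inl ⟨⟨b1, b2⟩, h3⟩)
      · have a2 : p.2 ∈ A := h2.resolve_right b2
        by_cases a1 : p.1 ∈ A
        · exact Or.inr ⟨a1, a2, b2⟩
        · exact absurd h3.symm (hsep _ a2 b2 _ b1 a1)
      · have a1 : p.1 ∈ A := h1.resolve_right b1
        by_cases a2 : p.2 ∈ A
        · exact Or.inl (Or.inr ⟨⟨a1, b1⟩, a2⟩)
        · exact absurd h3 (hsep _ a1 b1 _ b2 a2)
      · exact Or.inr ⟨h1.resolve_right b1, h2.resolve_right b2, b2⟩
    · have h4 := card_union_le (((B ×ˢ B).filter (fun p => G.Adj p.1 p.2)) ∪ ((A \ B) ×ˢ A))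
        (A ×ˢ (A \ B))
      have h5 := card_union_le ((B ×ˢ B).filter (fun p => G.Adj p.1 p.2)) ((A \ B) ×ˢ A)
      omega
  rw [card_product, card_product] at h1
  have h2 : A.card * (A \ B).card = (A \ B).card * A.card := Nat.mul_comm _ _
  omega

end sep

/-- The real inequality of the last case. -/
theorem rec_last (k a b x T e f E : ℝ) (hk : 0 < k) (hT : 0 ≤ T) (he : 0 < e)
    (ha : a ≤ (2 - e) * k) (hb : b ≤ (2 - e) * k) (hx1 : a + b - T ≤ x) (hx2 : x ≤ a + b)
    (hx3 : 2 * k ≤ x) (hff : 2 * k * (2 * k + 1) + (x - 2 * k) * (x - 2 * k - 1) ≤ f)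
    (hee : f ≤ a * a + b * b + E) (hE : E ≤ e * e / 4 * (k * k)) (hbig : 4 * T + 1 ≤ e * e * k) :
    False := by
  have hek : 0 < e * k := mul_pos he hk
  have h1 : (e * k) * (e * k) ≤ (2 * k - a) * (2 * k - b) :=
    mul_le_mul (by linarith) (by linarith) hek.le (by linarith)
  obtain ⟨p, hp⟩ : ∃ p : ℝ, p = a + b - 2 * k := ⟨_, rfl⟩
  obtain ⟨z, hz⟩ : ∃ z : ℝ, z = x - 2 * k := ⟨_, rfl⟩
  have hz0 : 0 ≤ z := by rw [hz]; linarith
  have hzp : z ≤ p := by rw [hz, hp]; linarith
  have hpT : p - T ≤ z := by rw [hz, hp]; linarith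
  have hp2 : p ≤ 2 * k := by rw [hp]; linarith
  have h2 : p * p - 2 * p * T ≤ z * z := by
    rcases le_total p T with h | h
    · have h3 : 0 ≤ p := hz0.trans hzp
      have h4 : p * p ≤ p * T := mul_le_mul_of_nonneg_left h h3
      have h5 : 0 ≤ p * T := mul_nonneg h3 hT
      have h6 : 0 ≤ z * z := mul_self_nonneg z
      linarith
    · have h3 : (p - T) * (p - T) ≤ z * z := mul_self_le_mul_self (by linarith) hpT
      have h4 : 0 ≤ T * T := mul_self_nonneg T
      nlinarith only [h3, h4]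
  have h3 : p * T ≤ 2 * k * T := mul_le_mul_of_nonneg_right hp2 hT
  have h4 : 4 * (k * k) + z * z ≤ f := by
    rw [← hz] at hff
    have h5 : z ≤ 2 * k := hzp.trans hp2
    nlinarith only [hff, h5]
  have h6 : (4 * T + 1) * k ≤ e * e * k * k := mul_le_mul_of_nonneg_right hbig hk.le
  have h7 : 4 * (k * k) + (p * p) - a * a - b * b = 2 * ((2 * k - a) * (2 * k - b)) := by
    rw [hp]; ring
  have h8 : 0 ≤ T * k := mul_nonneg hT hk.le
  nlinarith only [h1, h2, h3, h4, h6, h7, h8, hee, hE, hk]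

theorem pf_REC (hFFA : T_FFA) (hFFB : T_FFB) (hFFC : T_FFC) : T_REC := by
  classical
  intro ε₀ C T hε₀ hC
  obtain ⟨e, he⟩ : ∃ e : ℝ, e = min ε₀ (1 / 10) := ⟨_, rfl⟩
  have he0 : 0 < e := by rw [he]; exact lt_min hε₀ (by norm_num)
  have he1 : e ≤ ε₀ := by rw [he]; exact min_le_left _ _
  have he2 : e ≤ 1 / 10 := by rw [he]; exact min_le_right _ _
  have hee0 : 0 < e * e := mul_pos he0 he0
  obtain ⟨e3, he3⟩ : ∃ e3 : ℝ, e3 = e * e / (16 * (C + 1)) := ⟨_, rfl⟩
  have hC1 : 0 < 16 * (C + 1) := by linarith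
  have he30 : 0 < e3 := by rw [he3]; exact div_pos hee0 hC1
  have he3C : e3 * C ≤ e * e / 16 := by
    rw [he3, div_mul_eq_mul_div, div_le_div_iff₀ hC1 (by norm_num)]
    nlinarith only [hee0, hC]
  have he31 : e3 ≤ 1 := by
    rw [he3, div_le_one hC1]
    nlinarith only [he0, he2, hC]
  obtain ⟨e2, he2'⟩ : ∃ e2 : ℝ, e2 = e * e / 16 := ⟨_, rfl⟩
  have he20 : 0 < e2 := by rw [he2']; linarith
  have he21 : e2 ≤ e := by
    rw [he2']
    nlinarith only [he0, he2]
  obtain ⟨N1, hN1⟩ := exists_nat_ge (3 * (T : ℝ) / (e3 * e3))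
  obtain ⟨N2, hN2⟩ := exists_nat_ge ((4 * (T : ℝ) + 1) / (e * e))
  refine ⟨e2, N1 + N2 + 1, he20, ?_⟩
  intro k hk V _ G hm hmC hBd hff
  have hk1 : 1 ≤ k := by omega
  have hkpos : (0 : ℝ) < k := by exact_mod_cast hk1
  have hT0 : (0 : ℝ) ≤ T := Nat.cast_nonneg _
  have hkN1 : 3 * (T : ℝ) ≤ e3 * e3 * k := by
    have : (3 * (T : ℝ) / (e3 * e3)) ≤ k := hN1.trans (by exact_mod_cast (by omega : N1 ≤ k))
    rw [div_le_iff₀ (mul_pos he30 he30)] at this
    linarith
  have hkN2 : 4 * (T : ℝ) + 1 ≤ e * e * k := by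
    have : ((4 * (T : ℝ) + 1) / (e * e)) ≤ k := hN2.trans (by exact_mod_cast (by omega : N2 ≤ k))
    rw [div_le_iff₀ hee0] at this
    linarith
  have hk2 : 0 < (k : ℝ) * k := mul_pos hkpos hkpos
  -- the minimal set
  obtain ⟨Fm, hFm⟩ : ∃ Fm : Finset (Finset V), Fm = univ.filter (fun X : Finset V =>
      (2 - e) * k ≤ X.card ∧ (ff k X.card : ℝ) ≤ ee G X X + 2 * e2 * k ^ 2 +
        2 * e3 * k * ((Fintype.card V : ℝ) - X.card)) := ⟨_, rfl⟩
  have hne : Fm.Nonempty := by
    refine ⟨univ, ?_⟩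
    rw [hFm, mem_filter, card_univ]
    refine ⟨mem_univ _, ?_, ?_⟩
    · have : e2 * (k : ℝ) ≤ e * k := mul_le_mul_of_nonneg_right he21 hkpos.le
      linarith
    · have : 0 ≤ e2 * (k : ℝ) ^ 2 := by positivity
      linarith
  obtain ⟨X, hX, hmin⟩ := exists_min_image Fm Finset.card hne
  rw [hFm, mem_filter] at hX
  obtain ⟨_, hX1, hX2⟩ := hX
  have hmin' : ∀ B : Finset V, B.card < X.card → (2 - e) * k ≤ B.card →
      ¬ ((ff k B.card : ℝ) ≤ ee G B B + 2 * e2 * k ^ 2 +
        2 * e3 * k * ((Fintype.card V : ℝ) - B.card)) := by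
    intro B hB hB1 hB2
    have := hmin B (by rw [hFm, mem_filter]; exact ⟨mem_univ _, hB1, hB2⟩)
    omega
  have hXn : (X.card : ℝ) ≤ Fintype.card V := by exact_mod_cast card_le_univ X
  have herr : 2 * e2 * (k : ℝ) ^ 2 + 2 * e3 * k * ((Fintype.card V : ℝ) - X.card) ≤
      e * e / 4 * (k * k) := by
    have h1 : (Fintype.card V : ℝ) - X.card ≤ C * k := by
      have : (0 : ℝ) ≤ X.card := Nat.cast_nonneg _
      linarith
    have h2 : 2 * e3 * (k : ℝ) * ((Fintype.card V : ℝ) - X.card) ≤ 2 * e3 * k * (C * k) :=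
      mul_le_mul_of_nonneg_left h1 (by positivity)
    have h3 : e3 * C * (k * (k : ℝ)) ≤ e * e / 16 * (k * k) :=
      mul_le_mul_of_nonneg_right he3C hk2.le
    rw [he2']
    nlinarith only [h2, h3]
  have hkey : ¬ X.card ≤ 2 * k + 1 → ∀ A B : Finset V, (∀ x, x ∈ A ∨ x ∈ B ↔ x ∈ X) →
      (∀ x ∈ A, x ∉ B → ∀ y ∈ B, y ∉ A → ¬ G.Adj x y) → A ≠ X → B ≠ X →
      (A ∩ B).card ≤ T → A.card ≤ B.card → False := by
    intro hX3 A B hcov hsep hAX hBX hT hAB
    have hAs : A ⊆ X := fun x hx => (hcov x).1 (Or.inl hx)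
    have hBs : B ⊆ X := fun x hx => (hcov x).1 (Or.inr hx)
    have hBlt : B.card < X.card := card_lt_card (hBs.ssubset_of_ne hBX)
    have hun : A ∪ B = X := by ext x; rw [mem_union, hcov]
    have hcard : A.card + B.card = X.card + (A ∩ B).card := by
      rw [← hun, card_union_add_card_inter]
    have hsd : (A \ B).card + B.card = X.card := by
      rw [← hun, ← sdiff_union_self_eq_union, card_union_of_disjoint sdiff_disjoint]
    have hsd2 : (A \ B).card + (A ∩ B).card = A.card := by omega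
    have hA1 : 1 ≤ A.card := by omega
    have hB1 : 1 ≤ B.card := by omega
    have hAne : A.Nonempty := card_pos.1 hA1
    have hAout : ∃ v, v ∉ A := by
      by_contra hcon
      push Not at hcon
      exact hAX (Subset.antisymm hAs fun x _ => hcon x)
    have hsdR : ((A \ B).card : ℝ) + B.card = X.card := by exact_mod_cast hsd
    have hsd2R : ((A \ B).card : ℝ) + (A ∩ B).card = A.card := by exact_mod_cast hsd2
    have hTR : ((A ∩ B).card : ℝ) ≤ T := by exact_mod_cast hT
    rcases le_or_gt ((2 - e) * (k : ℝ)) B.card with hcase | hcase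
    · apply hmin' B hBlt hcase
      rcases lt_or_ge (A.card : ℝ) (e3 * k) with hA | hA
      · have h1 := rec_ee_sep2 hcov hsep
        have h2 : (ee G X X : ℝ) ≤ ee G B B + 2 * ((A \ B).card * A.card) := by exact_mod_cast h1
        have h3 : (ff k B.card : ℝ) ≤ ff k X.card := by
          exact_mod_cast rec_mono hFFA hk1 hB1 hBlt.le
        have h4 : ((A \ B).card : ℝ) * A.card ≤ (A \ B).card * (e3 * k) :=
          mul_le_mul_of_nonneg_left hA.le (Nat.cast_nonneg _)
        have h5 : (B.card : ℝ) = X.card - (A \ B).card := by linarith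
        rw [h5]
        nlinarith only [h2, h3, h4, hX2]
      · have h1 := rec_ee_sep hcov hsep
        have h2 := hBd A hAne hAout
        have h3 := hFFC k A.card B.card hk1 hA1 hB1
        have h4 : ff k (A.card + B.card - 1) ≤ ff k (X.card + T) :=
          rec_mono hFFA hk1 (by omega) (by omega)
        have h5 := rec_steps hFFA hk1 (show 1 ≤ X.card by omega) T
        have h6 : ff k B.card ≤ ff k X.card + 4 * k * T - ff k A.card := by omega
        have h7 : ff k A.card + ff k B.card ≤ ff k X.card + 4 * k * T := by omega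
        have h8 : (ff k A.card : ℝ) + ff k B.card ≤ ff k X.card + 4 * k * T := by
          exact_mod_cast h7
        have h9 : (ee G X X : ℝ) ≤ ee G A A + ee G B B := by exact_mod_cast h1
        have h10 : (ee G A A : ℝ) ≤ ff k A.card := by exact_mod_cast h2
        have h11 : 2 * (T : ℝ) ≤ e3 * (A \ B).card := by
          have g1 : e3 * (k : ℝ) - T ≤ (A \ B).card := by linarith
          have g2 : e3 * (e3 * (k : ℝ) - T) ≤ e3 * (A \ B).card :=
            mul_le_mul_of_nonneg_left g1 he30.le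
          have g3 : e3 * (T : ℝ) ≤ 1 * T := mul_le_mul_of_nonneg_right he31 hT0
          linarith
        have h12 : 2 * (T : ℝ) * k ≤ e3 * (A \ B).card * k :=
          mul_le_mul_of_nonneg_right h11 hkpos.le
        have h13 : (B.card : ℝ) = X.card - (A \ B).card := by linarith
        have h14 : 2 * e3 * (k : ℝ) * ((Fintype.card V : ℝ) - B.card) =
            2 * e3 * k * ((Fintype.card V : ℝ) - X.card) + 2 * (e3 * (A \ B).card * k) := by
          rw [h13]; ring
        linarith only [h8, h9, h10, h12, hX2, h14]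
    · have h1 := rec_ee_sep hcov hsep
      have h2 : (ee G A A : ℝ) ≤ (A.card : ℝ) * A.card := by exact_mod_cast ee_le_mul A A
      have h3 : (ee G B B : ℝ) ≤ (B.card : ℝ) * B.card := by exact_mod_cast ee_le_mul B B
      have h4 : (ee G X X : ℝ) ≤ ee G A A + ee G B B := by exact_mod_cast h1
      have hABR : (A.card : ℝ) ≤ B.card := by exact_mod_cast hAB
      have h5 : (X.card : ℝ) ≤ A.card + B.card := by
        exact_mod_cast (by omega : X.card ≤ A.card + B.card)
      have h6 : (X.card : ℝ) ≤ 4 * k := by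
        have : 0 < e * (k : ℝ) := mul_pos he0 hkpos
        linarith
      have h7 : X.card ≤ 4 * k := by exact_mod_cast h6
      obtain ⟨s, hs⟩ : ∃ s, X.card = s + 2 * k := ⟨X.card - 2 * k, by omega⟩
      have t1 := (hFFA k s hk1 (by omega)).2.2
      have t2 := (hFFB k s hk1 (by omega)).2.2 (by omega)
      rw [← hs, t2] at t1
      have t3 : (ff k X.card : ℝ) = s * ((s : ℝ) - 1) + 2 * k * (2 * k + 1) := by
        rw [t1]
        push_cast
        rw [Nat.cast_sub (show 1 ≤ s by omega)]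
        push_cast
        ring
      have t4 : (X.card : ℝ) = s + 2 * k := by rw [hs]; push_cast; ring
      have t5 : (A.card : ℝ) + B.card - T ≤ X.card := by
        have : ((A.card : ℝ) + B.card) ≤ X.card + T := by
          exact_mod_cast (by omega : A.card + B.card ≤ X.card + T)
        linarith
      refine rec_last k A.card B.card X.card T e (ff k X.card)
        (2 * e2 * (k : ℝ) ^ 2 + 2 * e3 * k * ((Fintype.card V : ℝ) - X.card)) hkpos hT0 he0
        (by linarith) hcase.le t5 h5 ?_ ?_ ?_ herr hkN2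
      · have : 0 ≤ (s : ℝ) := Nat.cast_nonneg _
        linarith
      · rw [t3]
        have g1 : (X.card : ℝ) - 2 * k = s := by linarith
        rw [g1]
        linarith
      · linarith
  refine ⟨X, ?_, ?_, ?_⟩
  · have : e * (k : ℝ) ≤ ε₀ * k := mul_le_mul_of_nonneg_right he1 hkpos.le
    linarith
  · have h1 : e * e / 4 ≤ ε₀ := by nlinarith only [he0, he1, he2]
    have h2 : e * e / 4 * ((k : ℝ) * k) ≤ ε₀ * (k * k) := mul_le_mul_of_nonneg_right h1 hk2.le
    have h3 : (k : ℝ) ^ 2 = k * k := by ring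
    rw [h3] at *
    linarith
  · by_cases hX3 : X.card ≤ 2 * k + 1
    · exact Or.inl hX3
    right
    intro A B hcov hsep
    by_contra hcon
    push Not at hcon
    obtain ⟨hA, hB, hS⟩ := hcon
    have hT : (A ∩ B).card ≤ T := hS (A ∩ B) (fun x => mem_inter)
    rcases le_total A.card B.card with h | h
    · exact hkey hX3 A B hcov hsep hA hB hT h
    · refine hkey hX3 B A (fun x => by rw [or_comm]; exact hcov x) ?_ hB hA ?_ h
      · intro x hx hx' y hy hy' hadj
        exact hsep y hy hy' x hx hx' hadj.symm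
      · rw [inter_comm]; exact hT

end Pool.Agent.H48.VX
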