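import Pool.Agent.H30.VX.Targets

/-!
# MP_d32443_co, board vex_modules: row STB
-/

set_option autoImplicit false

open Finset Pool.Agent.H48.CE Pool.Agent.H30.VR Pool.Agent.H30.VX

namespace Pool.Agent.H48.VX

theorem stb_up {V : Type} {G : SimpleGraph V} {ε : ℝ} {k : ℕ} {X : Finset V}
    (h : (∃ H B : Finset {x // x ∈ X}, C1 (rs G X) ε k H B) ∨
      ∃ W : Finset {x // x ∈ X}, C2 (rs G X) ε k W) :
    (∃ H B : Finset V, C1 G ε k H B) ∨ ∃ W : Finset V, C2 G ε k W := by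
  rcases h with ⟨H, B, h⟩ | ⟨W, h⟩
  · exact Or.inl ⟨_, _, c1_up h⟩
  · exact Or.inr ⟨_, c2_up h⟩

theorem pf_STB (hSHP : T_SHP) (hCT2 : T_CT2) (hREC : T_REC) (hMDU : T_MDU) : T_STB := by
  classical
  intro ε hε hε1
  obtain ⟨e1, T, k1, he1, h1⟩ := hSHP ε hε hε1
  obtain ⟨e2, k2, he2, h2⟩ := hCT2 ε hε hε1
  obtain ⟨C, k3, hC, h3⟩ := hMDU e1 T he1
  obtain ⟨eq, heq⟩ : ∃ eq : ℝ, eq = min (min e1 e2) 1 := ⟨_, rfl⟩
  have hq0 : 0 < eq := by rw [heq]; exact lt_min (lt_min he1 he2) (by norm_num)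
  have hq1 : eq ≤ e1 := by rw [heq]; exact (min_le_left _ _).trans (min_le_left _ _)
  have hq2 : eq ≤ e2 := by rw [heq]; exact (min_le_left _ _).trans (min_le_right _ _)
  have hq3 : eq ≤ 1 := by rw [heq]; exact min_le_right _ _
  obtain ⟨e4, k4, he4, h4⟩ := hREC eq C T hq0 hC
  obtain ⟨N1, hN1⟩ := exists_nat_ge (8 / e4)
  obtain ⟨N2, hN2⟩ := exists_nat_ge (1 / e2)
  refine ⟨e4, k1 + k2 + k3 + k4 + N1 + N2 + 1, he4, ?_⟩
  intro k hk V _ G hrun hm hBd hff
  have hkpos : (0 : ℝ) < k := by exact_mod_cast (by omega : 0 < k)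
  -- the highly connected case
  have key : ∀ X : Finset V, (2 - e1) * k ≤ X.card →
      (ff k X.card : ℝ) ≤ ee G X X + e1 * k * X.card → ConS G T X →
      (∃ H B : Finset V, C1 G ε k H B) ∨ ∃ W : Finset V, C2 G ε k W := by
    intro X hX hffX hcon
    apply stb_up (X := X)
    refine h1 k (by omega) (rs G X) (con_rs hcon) (fun h => hrun (rs_hasRun h)) ?_ ?_
    · rw [card_rs]; exact hX
    · rw [card_rs, ee_rs_univ]; exact hffX
  rcases le_total (C * k) (Fintype.card V : ℝ) with hc | hc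
  · obtain ⟨X, hX1, hX2, hX3⟩ := h3 k (by omega) G hc hff
    exact key X hX1 hX2 hX3
  · have hk8 : (8 : ℝ) ≤ e4 * k := by
      have : (8 / e4 : ℝ) ≤ k := hN1.trans (by exact_mod_cast (by omega : N1 ≤ k))
      rw [div_le_iff₀ he4] at this
      linarith
    have hff' : (ff k (Fintype.card V) : ℝ) ≤ ee G univ univ + e4 * k ^ 2 := by
      have a1 : (ff k (Fintype.card V) : ℝ) ≤ ee G univ univ + 8 * k := by exact_mod_cast hff
      have a2 : (8 : ℝ) * k ≤ e4 * k * k := mul_le_mul_of_nonneg_right hk8 hkpos.le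
      have a3 : e4 * (k : ℝ) ^ 2 = e4 * k * k := by ring
      linarith
    obtain ⟨X, hX1, hX2, hX3⟩ := h4 k (by omega) G hm hc hBd hff'
    have hXk : (k : ℝ) ≤ X.card := by
      have a1 : eq * (k : ℝ) ≤ 1 * k := mul_le_mul_of_nonneg_right hq3 hkpos.le
      linarith
    have hX4 : ∀ e : ℝ, eq ≤ e → (ff k X.card : ℝ) ≤ ee G X X + e * k * X.card := by
      intro e he
      have a1 : eq * k * (k : ℝ) ≤ e * k * X.card := by
        have b1 : eq * (k : ℝ) ≤ e * k := mul_le_mul_of_nonneg_right he hkpos.le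
        have b2 : 0 ≤ eq * (k : ℝ) := (mul_pos hq0 hkpos).le
        exact mul_le_mul b1 hXk hkpos.le (b2.trans b1)
      have a3 : eq * (k : ℝ) ^ 2 = eq * k * k := by ring
      linarith
    have f1 : eq * (k : ℝ) ≤ e1 * k := mul_le_mul_of_nonneg_right hq1 hkpos.le
    have f2 : eq * (k : ℝ) ≤ e2 * k := mul_le_mul_of_nonneg_right hq2 hkpos.le
    rcases hX3 with h5 | h5
    · apply stb_up (X := X)
      right
      refine h2 k (by omega) (rs G X) ?_ ?_ ?_
      · rw [card_rs]; linarith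
      · rw [card_rs]
        have a1 : (X.card : ℝ) ≤ 2 * k + 1 := by exact_mod_cast h5
        have a2 : (1 / e2 : ℝ) ≤ k := hN2.trans (by exact_mod_cast (by omega : N2 ≤ k))
        rw [div_le_iff₀ he2] at a2
        linarith
      · rw [card_rs, ee_rs_univ]
        exact hX4 e2 hq2
    · exact key X (by linarith) (hX4 e1 hq1) h5

end Pool.Agent.H48.VX
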