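import Pool.Agent.H30.VX.Targets

/-!
# MP_d32443_co, board vex_modules: row SHP
-/

set_option autoImplicit false

open Finset Pool.Agent.H48.CE Pool.Agent.H30.VR Pool.Agent.H30.VX

namespace Pool.Agent.H48.VX

/-- The number of adjacent pairs, from a half-integral cover. -/
theorem shp_count {V : Type} [Fintype V] (G : SimpleGraph V) (H M : Finset V) :
    (ee G univ univ : ℝ) ≤ (H.card : ℝ) * H.card +
      2 * H.card * ((Fintype.card V : ℝ) - H.card) + (M.card : ℝ) * M.card + uc G H M := by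
  classical
  have h1 : ee G univ univ ≤ (H ×ˢ H).card + (H ×ˢ Hᶜ).card + (Hᶜ ×ˢ H).card + (M ×ˢ M).card
      + uc G H M := by
    rw [ee_eq_card]
    have hsub : ((univ ×ˢ univ : Finset (V × V)).filter (fun p => G.Adj p.1 p.2)) ⊆
        ((((H ×ˢ H) ∪ (H ×ˢ Hᶜ)) ∪ (Hᶜ ×ˢ H)) ∪ (M ×ˢ M)) ∪
        ((univ ×ˢ univ : Finset (V × V)).filter (fun p => G.Adj p.1 p.2 ∧ p.1 ∉ H ∧ p.2 ∉ H ∧
          ¬ (p.1 ∈ M ∧ p.2 ∈ M))) := by
      intro p hp
      rw [mem_filter] at hp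
      simp only [mem_union, mem_product, mem_compl, mem_filter, mem_univ, true_and, and_true]
      by_cases a1 : p.1 ∈ H <;> by_cases a2 : p.2 ∈ H
      · exact Or.inl (Or.inl (Or.inl (Or.inl ⟨a1, a2⟩)))
      · exact Or.inl (Or.inl (Or.inl (Or.inr ⟨a1, a2⟩)))
      · exact Or.inl (Or.inl (Or.inr ⟨a1, a2⟩))
      · by_cases a3 : p.1 ∈ M ∧ p.2 ∈ M
        · exact Or.inl (Or.inr a3)
        · exact Or.inr ⟨hp.2, a1, a2, a3⟩
    refine (card_le_card hsub).trans ?_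
    refine (card_union_le _ _).trans ?_
    have h2 := card_union_le (((H ×ˢ H) ∪ (H ×ˢ Hᶜ)) ∪ (Hᶜ ×ˢ H)) (M ×ˢ M)
    have h3 := card_union_le ((H ×ˢ H) ∪ (H ×ˢ Hᶜ)) (Hᶜ ×ˢ H)
    have h4 := card_union_le (H ×ˢ H) (H ×ˢ Hᶜ)
    have h5 : ((univ ×ˢ univ : Finset (V × V)).filter (fun p => G.Adj p.1 p.2 ∧ p.1 ∉ H ∧
        p.2 ∉ H ∧ ¬ (p.1 ∈ M ∧ p.2 ∈ M))).card = uc G H M := rfl
    omega
  rw [card_product, card_product, card_product, card_product] at h1
  have h2 : ((Hᶜ).card : ℝ) = (Fintype.card V : ℝ) - H.card := by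
    rw [card_compl, Nat.cast_sub (card_le_univ H)]
  have h3 : (ee G univ univ : ℝ) ≤ (H.card : ℝ) * H.card + (H.card : ℝ) * (Hᶜ).card +
      ((Hᶜ).card : ℝ) * H.card + (M.card : ℝ) * M.card + uc G H M := by exact_mod_cast h1
  rw [h2] at h3
  linarith

theorem pf_SHP (hCOV : T_COV) (hQUA : T_QUA) (hCT1 : T_CT1) (hCT2 : T_CT2) : T_SHP := by
  classical
  intro ε hε hε1
  obtain ⟨e1, k1, he1, h1⟩ := hCT1 ε hε hε1
  obtain ⟨e2, k2, he2, h2⟩ := hCT2 ε hε hε1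
  obtain ⟨eq, heq⟩ : ∃ eq : ℝ, eq = min (min e1 e2) (1 / 100) := ⟨_, rfl⟩
  have hq0 : 0 < eq := by rw [heq]; exact lt_min (lt_min he1 he2) (by norm_num)
  have hq1 : eq ≤ e1 := by rw [heq]; exact (min_le_left _ _).trans (min_le_left _ _)
  have hq2 : eq ≤ e2 := by rw [heq]; exact (min_le_left _ _).trans (min_le_right _ _)
  have hq3 : eq ≤ 1 / 100 := by rw [heq]; exact min_le_right _ _
  obtain ⟨e3, k3, he3, h3⟩ := hQUA eq hq0 hq3
  obtain ⟨ec, hec⟩ : ∃ ec : ℝ, ec = min eq (e3 / 2) := ⟨_, rfl⟩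
  have hc0 : 0 < ec := by rw [hec]; exact lt_min hq0 (by linarith)
  have hc1 : ec ≤ eq := by rw [hec]; exact min_le_left _ _
  have hc2 : ec ≤ e3 / 2 := by rw [hec]; exact min_le_right _ _
  obtain ⟨T, k4, h4⟩ := hCOV ec hc0 (by linarith)
  refine ⟨ec, T, k1 + k2 + k3 + k4 + 1, hc0, ?_⟩
  intro k hk V _ G hcon hrun hm hff
  have hkpos : (0 : ℝ) < k := by exact_mod_cast (by omega : 0 < k)
  have hmpos : (0 : ℝ) < Fintype.card V := by
    have : 0 < (2 - ec) * (k : ℝ) := mul_pos (by linarith) hkpos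
    linarith
  have hmpos' : 0 < Fintype.card V := by exact_mod_cast hmpos
  have hkm : 0 < (k : ℝ) * Fintype.card V := mul_pos hkpos hmpos
  obtain ⟨H, M, hHM, hsum, huc⟩ := h4 k (by omega) G hmpos' hcon hrun
  have hcard : H.card + M.card ≤ Fintype.card V := by
    rw [← card_union_of_disjoint (disjoint_left.2 hHM)]
    exact card_le_univ _
  have hcount := shp_count G H M
  have e1' : ec * k * (Fintype.card V : ℝ) ≤ e3 / 2 * k * Fintype.card V := by
    have := mul_le_mul_of_nonneg_right hc2 hkm.le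
    nlinarith [this]
  have hk2 : ec * (k : ℝ) ≤ e3 / 2 * k := mul_le_mul_of_nonneg_right hc2 hkpos.le
  have hk3 : 0 < e3 * (k : ℝ) := mul_pos he3 hkpos
  have hQ := h3 k (by omega) (Fintype.card V) H.card M.card
    (by nlinarith [hm, hk2, hk3]) (by nlinarith [hsum, hk2, hk3]) hcard
    (by nlinarith [hff, hcount, huc, e1'])
  have f1 : ec * (k : ℝ) ≤ e1 * k := mul_le_mul_of_nonneg_right (hc1.trans hq1) hkpos.le
  have f2 : ec * (k : ℝ) ≤ e2 * k := mul_le_mul_of_nonneg_right (hc1.trans hq2) hkpos.le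
  have f3 : eq * (k : ℝ) ≤ e1 * k := mul_le_mul_of_nonneg_right hq1 hkpos.le
  have f4 : eq * (k : ℝ) ≤ e2 * k := mul_le_mul_of_nonneg_right hq2 hkpos.le
  have g1 : ec * k * (Fintype.card V : ℝ) ≤ e1 * k * Fintype.card V :=
    mul_le_mul_of_nonneg_right f1 hmpos.le
  have g2 : ec * k * (Fintype.card V : ℝ) ≤ e2 * k * Fintype.card V :=
    mul_le_mul_of_nonneg_right f2 hmpos.le
  rcases hQ with ⟨q1, q2⟩ | ⟨q1, q2⟩
  · left
    refine h1 k (by omega) G H M hHM (by linarith) (by linarith) q2 (by linarith) (by linarith)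
  · right
    refine h2 k (by omega) G (by linarith) (by linarith) (by linarith)

end Pool.Agent.H48.VX
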